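import Pool.Agent.U672.AJ.Maps

/-!
# Injectivity of the p-adic étale Abel-Jacobi maps by cutting and pasting

`k` is a number field and `D` the triangulated category of geometric motives over `k` with rational coefficients,
in the form of its standard properties (`PasteFacts`); it contains the category of Chow motives. For a
prime `p` and an object `A` let `CH m A` be the group of the morphisms `A → ℚ(m)[2m]` whose `p`-adic
realization is zero (this does not depend on `p` for Chow motives), and
`J m A = H¹(k, H^(2m-1)(A, ℚ_p(m)))`; the realization in continuous étale cohomology and the
Hochschild-Serre spectral sequence give the map `aj m : CH m A → J m A` (`AbelJacobi`). For a direct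
factor `A` of the motive of a smooth projective scheme this is the `p`-adic étale Abel-Jacobi map of the problem.

**Theorem.** Let `X` be a smooth proper scheme, of any dimension, which can be obtained by cutting and pasting
and by finite free coverings from
* the closed subschemes of affine spaces, of any dimension, defined by binomials and at most one trinomial
  (systems of excess at most one; the *excess* of a system of polynomials is the sum of
  (number of terms - 2) over its members with at least three terms), singular or not,
* all schemes of dimension at most one,
* all smooth proper schemes whose `p`-adic Abel-Jacobi maps are injective in all codimensions.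
Then the `p`-adic Abel-Jacobi maps are injective for all Chow motives which are direct factors of sums of
Tate twists of motives of such schemes.

The schemes which are cut and pasted need not be smooth or proper. More generally, if the `p`-adic Abel-Jacobi
maps are injective for all smooth proper schemes of dimension at most `N`, then this holds with `N` instead of
one: for instance hypersurfaces with at most `N + 2` terms in affine spaces of any dimension can be used.

The proof: the motive with compact support of a system of excess at most `N` is in the thick
triangulated subcategory generated by the Tate twists of the motives of schemes of dimension at most `N`. Hence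
the motive of `X` is a direct factor of a sum of Tate twists of motives of smooth proper schemes with injective
Abel-Jacobi maps.
-/

set_option autoImplicit false

open CategoryTheory MonoidalCategory AlgebraicGeometry Pool.Agent.TH137.DG Pool.Agent.Y116.UV
  Pool.Agent.Z125.UN Pool.Agent.U672.SF Pool.Agent.U672.AJ

namespace Pool.Agent.Results.MP_386e47_ag.CutAndPaste

universe v u w

/-- **Theorem.** Let the `p`-adic étale Abel-Jacobi maps (`S p`) be injective for the smooth proper schemes of
dimension at most one (this is known). Then for each prime `p`: (1) if smooth proper schemes `X` are pasted
from systems of excess at most one, schemes of dimension at most one and smooth proper schemes with injective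
`p`-adic Abel-Jacobi maps, then the `p`-adic Abel-Jacobi maps are injective for all direct factors of sums of
Tate twists of motives of such schemes. (2) The same with `N` instead of one. -/
theorem result {k : Type} [Field k] [NumberField k] {C : Type u} [Category.{v} C]
    [MonoidalCategory C] [SymmetricCategory C] [Preadditive C] [Linear ℚ C]
    [Limits.HasZeroObject C] [HasShift C ℤ] [∀ n : ℤ, (shiftFunctor C n).Additive]
    [Pretriangulated C] {D : Motives k C} (hD : PasteFacts D)
    (S : Nat.Primes → AbelJacobi.{v, u, w} D)
    (hcurves : ∀ p X, SmoothProper X → topologicalKrullDim X.left ≤ (1 : ℕ) →
      IsInjective (S p) (D.M X)) (p : Nat.Primes) :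
    (∀ A : C, Summand D (fun X => SmoothProper X ∧
        Pasted 1 (fun Y => SmoothProper Y ∧ IsInjective (S p) (D.M Y)) X) A →
          IsInjective (S p) A) ∧
    ∀ N : ℕ, (∀ X, SmoothProper X → topologicalKrullDim X.left ≤ N →
        IsInjective (S p) (D.M X)) →
      ∀ A : C, Summand D (fun X => SmoothProper X ∧
        Pasted N (fun Y => SmoothProper Y ∧ IsInjective (S p) (D.M Y)) X) A →
          IsInjective (S p) A := by
  have key : ∀ N : ℕ,
      (∀ X, SmoothProper X → topologicalKrullDim X.left ≤ N → IsInjective (S p) (D.M X)) →
      ∀ A : C, Summand D (fun X => SmoothProper X ∧
        Pasted N (fun Y => SmoothProper Y ∧ IsInjective (S p) (D.M Y)) X) A →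
          IsInjective (S p) A := by
    intro N h A hA
    refine summand_inj (fun X hX => ?_) hA
    exact summand_inj (fun Y hY => hY.2)
      (pasted_summand hD (fun Y hY => hY.1) (fun Y h1 h2 => ⟨h1, h Y h1 h2⟩) X hX.2 hX.1)
  exact ⟨key 1 (hcurves p), key⟩

end Pool.Agent.Results.MP_386e47_ag.CutAndPaste
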