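import Pool.Agent.U226.KP.Law

/-!
# The kernels of the p-adic Abel–Jacobi maps on the motives `M ⊗ (N ⊗ N^∨)^⊗n`

Let `K₀` be a number field, `N` a nonzero Chow motive over `K₀` with `ℚ`-coefficients which satisfies the sign
conjecture `C⁺` (for example any summand with `C⁺` of the motive of a product of curves, surfaces, abelian
varieties, complete intersections; or any `(X, π^j, r)`), `b` the dimension of its cohomology, `M` an
ARBITRARY Chow motive, `E_n = (N ⊗ N^∨)^⊗n`. For a set `S` of primes let `Ker_S (P) ⊂ CH (P)^0` be the common
kernel of the maps `AJ_p`, `p ∈ S`, for a motive `P`; `κ_S (n) = dim Ker_S (M ⊗ E_n)`, a number or infinity;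
`ρ_M (n)`, `ρ (n)` the (finite) ranks of `CH (M ⊗ E_n)`, `CH (E_n)` modulo numerical equivalence. The question
is whether all `κ_p (n)` are zero.

Theorem.
(1) `κ_S (n) / ρ (n)` and `ρ_M (n) / ρ (n)` converge for `n → ∞`; the limits are natural numbers or infinity.
The first limit is `0` if and only if `Ker_S (M ⊗ E_n) = 0` for all `n`.
(2) If `Ker_S (M ⊗ E_m) ≠ 0` then for ALL `n ≥ 128 (m + 1) ^ 2 b ^ (4 m + 12)` we have `κ_S (n) ≥ ρ (n) / 2` and
`κ_S (n) ≥ b ^ (2 n) / (2 (n + 1) ^ (b ^ 2))`. One inequality `2 κ_S (n) < ρ (n)` implies the injectivity for
`M ⊗ E_m`; for `m = 0` this is a criterion for an arbitrary motive `M`, with a bound which depends on `b` only.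
(3) **Small kernels imply finite-dimensional motives.** If the first limit is a number `k`, for ONE `S` (for
example one prime) and ONE `M` which is not orthogonal to the `E_n` (for example `M = 1`), then all
homologically trivial endomorphisms `y` of all `N^⊗n` satisfy `y ^ (k + 2) = 0`, homologically trivial classes
`α` on the `E_n` satisfy `α^⊗(k + 2) = 0`, and `N` is finite-dimensional in the sense of Kimura.
(4) **Independence of p.** For two sets of primes the dimension of `Ker_S / (Ker_S ∩ Ker_S')` for `M ⊗ E_n`
divided by `ρ (n)` converges to a natural number or infinity; it is `0` if and only if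
`Ker_S ⊂ Ker_S'` for all `M ⊗ E_n`; if this fails for `M ⊗ E_m` then the dimension is at least `ρ (n) / 2` and
`b ^ (2 n) / (2 (n + 1) ^ (b ^ 2))` for all `n` as in (2). So a difference between two primes is never isolated.

Here motives are those of the problem: correspondences of degree zero and Tate twists; the classes on
`M ⊗ E_n` are cycles of one codimension. The similar hand-in `MP_537ea0_ag.KernelLaw` (complex Abel–Jacobi maps
over `ℚ̄`) treats correspondences of all degrees and the powers of a self-dual motive which contains the
unit, and one kernel. The law for additive functors was applied to powers of one variety in the starting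
result `MP_f4876d_ag.SeparatednessLaw`.

The setting. `C` is the category of Chow motives over `K₀`, a rigid symmetric monoidal pseudo-abelian category,
`T = N`, `B = M`, `Hom (1, P) = CH (P)`; `R` is the Betti or `l`-adic cohomology of `M_{K̄₀}` with coefficients
extended to an algebraically closed field. `A` and `A'` (`AJKernel R`) are the kernels `Ker_S`, `Ker_S'` as ideals:
they are stable under composition and under products with motives, consist of homologically trivial
morphisms and contain the compositions of two homologically trivial morphisms (the Hochschild–Serre
filtration of the continuous cohomology is multiplicative, and products of classes in `F^1` lie in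
`F^2`, which is in the kernel of `AJ_p`).

Idea of the proof. `N ⊗ N^∨` is self-dual, satisfies `C⁺` and contains the unit, so that the law of the values
of additive functors (starting library `N64.AF`) applies to `Y ↦ Ker_S (M ⊗ Y)` and
`Y ↦ Ker_S / (Ker_S ∩ Ker_S') (M ⊗ Y)`. If the limit is a number `k` then `k` numerically trivial morphisms
between the `E_n` act as zero on the kernels; for a homologically trivial `y` the square is in the kernel,
one multiplies with a class on `M ⊗ E_p` with a dual class and contracts. An endomorphism of `N^⊗n` gives
one of `E_n`.
-/

set_option autoImplicit false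

open CategoryTheory MonoidalCategory Module Filter Topology
open Pool.Agent.Y112.SR Pool.Agent.Y112.KD Pool.Agent.N64.AF Pool.Agent.U226.FX Pool.Agent.U226.KP

namespace Pool.Agent.Results.MP_386e47_ag.PadicKernelLaw

universe v u w

/-- The laws for one kernel of Abel-Jacobi type and for the comparison of two such kernels on the products of
an arbitrary `B` with the powers of `T ⊗ Tᘁ`. -/
theorem result {C : Type u} [Category.{v} C] [Preadditive C] [MonoidalCategory C]
    [MonoidalPreadditive C] [SymmetricCategory C] [RightRigidCategory C]
    [Linear ℚ C] [MonoidalLinear ℚ C] [IsIdempotentComplete C]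
    {K : Type w} [Field K] [IsAlgClosed K] [Algebra ℚ K] (R : SuperRealisation C K)
    (hR : IsReal ℚ R) (T : C) (hT : R.CPlus T) (hb : 0 < bt R T) (A A' : AJKernel R) (B : C) :
    (∃ N d : ℕ∞, KernelPart A B T N d) ∧ ∃ M : ℕ∞, ComparisonPart A A' B T M :=
  ⟨kernel_part hR hT hb A B, comparison_part hR hT hb A A' B⟩

end Pool.Agent.Results.MP_386e47_ag.PadicKernelLaw
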