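import Pool.Agent.U724.CH.KerSum

/-!
# MP_386e47_ag: the kernel of the p-adic Abel–Jacobi map and simple motives

Let `X` be a smooth projective variety over a number field `k` with the sign conjecture (for instance an
abelian variety, a surface, or a product of such varieties), `κ (n)` the dimension of the kernel of the
p-adic Abel–Jacobi map on the homologically trivial cycles of all codimensions on `X ^ n`, a number or
infinity, and `ρ (n)` the (finite) rank of the group of the cycles on `X ^ n` modulo numerical
equivalence. Then `κ (n) / ρ (n)` converges to a natural number `N` or to infinity, and `N = 0` if and
only if the Abel–Jacobi maps of all `X ^ n` are injective (the law, from the library). We show: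

Theorem. Let `M_1, ..., M_s` be Chow motives which are direct summands of motives of powers of `X`, which
are simple modulo numerical equivalence and pairwise not isomorphic (up to Tate twists) modulo numerical
equivalence, of ranks `r_1, ..., r_s`. If the Abel–Jacobi map is not injective for any of them then
`N ≥ r_1 + ... + r_s`.

In particular the conjecture of the problem holds for each simple motive of rank greater than `N` in the
tensor category generated by `X`, and if `N` is finite then it fails for at most `N` simple
motives in this category, up to Tate twists and isomorphism modulo numerical equivalence. There is no
assumption on `X` besides the sign conjecture: the motives need not be finite-dimensional, and the standard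
conjectures are not used.

Idea of the proof. Let `N` be finite. Then (library) the products of `N` numerically trivial
correspondences between powers of `X` act as zero on the kernels of the Abel–Jacobi maps. For a nonzero
element `z_i = e_i z_i` of the kernel for `X ^ (m_i)` let `d_i + 1` be the smallest number such that the
products of `d_i + 1` numerically trivial correspondences kill `z_i`. Order the parts such that
`d_1 ≤ ... ≤ d_s`. Let `φ` be a correspondence from `X ^ (m_j)` to `X ^ n` such that `φ z_j` is a sum
of elements `χ_i z_i` with `i < j`. Then `φ e_j` is numerically trivial: otherwise, since `e_j` is simple,
there is a correspondence `ψ` with `e_j ψ φ e_j = e_j + y`, with a numerically trivial `y`, so that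
`z_j + y z_j` is the sum of the elements `e_j ψ χ_i e_i z_i`. The correspondences `e_j ψ χ_i e_i` are
numerically trivial because the parts are not isomorphic. So `z_j` is killed by the products of `d_j`
numerically trivial correspondences, a contradiction. So the dimension of the kernel for `X ^ n` is at least
the sum over `j` of the dimensions of the spaces of the correspondences `φ e_j` modulo numerical
equivalence, which are asymptotically `r_j ρ (n)` (library: the asymptotic multiplicity is the rank).

The setting. The Chow group `Chow X` of a scheme `X` (cycles of all dimensions with rational
coefficients modulo rational equivalence) is defined with the order of vanishing of Mathlib.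
Intersection theory enters through the category `C` of Chow motives over `k` with the correspondences
of all degrees as morphisms: a rigid symmetric monoidal category with objects `h (X)` for the varieties
`X` over `k`, self-dual, with `Hom (1, h (X)) = Chow X` and `h (X × Y) = h (X) ⊗ h (Y)` (structure
`Motives`). `R` is a Weil cohomology with coefficients extended to an algebraically closed field `K`, a
tensor functor from `C` to super vector spaces; `R.CPlus` is the sign conjecture. The Abel–Jacobi map `A`
(structure `Motives.AJMap`) is any family of maps from the groups of the homologically trivial cycles on the
varieties to sets with a zero element on which the correspondences act, compatible with this action; for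
the p-adic Abel–Jacobi map the target is the sum over `n` of the continuous Galois cohomology groups
`H ^ 1 (k, H ^ (2 n - 1) (X, ℚ_p (n)))`.
-/

set_option autoImplicit false

open CategoryTheory MonoidalCategory Module
open Pool.Agent.Y112.SR Pool.Agent.Y112.KD Pool.Agent.N64.AF
open Pool.Agent.U724.NT Pool.Agent.U724.CH

namespace Pool.Agent.Results.MP_386e47_ag.SimpleMotivesLaw

universe u u' v w y

/-- The law for the kernel of the Abel–Jacobi map on the powers of `X`; the limit is at least the sum of
the ranks of simple parts of the motives of the powers, pairwise not isomorphic, which contain nonzero
elements of the kernel. -/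
theorem result {k : Type u} [Field k] {C : Type u'} [Category.{v} C] [Preadditive C]
    [MonoidalCategory C] [MonoidalPreadditive C] [SymmetricCategory C] [RightRigidCategory C]
    [Linear ℚ C] [MonoidalLinear ℚ C] (M : Motives k C)
    {K : Type w} [Field K] [IsAlgClosed K] [Algebra ℚ K] (R : SuperRealisation C K)
    (A : Motives.AJMap.{u, u', v, w, y} M R)
    (X : Sch k) (hX : M.IsVar X) (hne : Nonempty X.left) (hs : R.CPlus (M.h X)) :
    ∃ N : ℕ∞, HasLaw ℚ (M.h X) (fun n => dimE ℚ (A.ker (M.isVar_power hX n))) N ∧
      (N = 0 ↔ ∀ n, A.ker (M.isVar_power hX n) = ⊥) ∧
      ∀ (s : ℕ) (m r : Fin s → ℕ) (e : ∀ i, Chow (prod (power X (m i)) (power X (m i))).left),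
        (∀ i, M.IsSimplePart R (M.isVar_power hX (m i)) (e i) (r i)) →
        (∀ i j, i ≠ j →
          M.NotIso (M.isVar_power hX (m i)) (M.isVar_power hX (m j)) (e i) (e j)) →
        (∀ i, ∃ z ∈ A.ker (M.isVar_power hX (m i)), z ≠ 0 ∧
          M.push (M.isVar_power hX (m i)) (M.isVar_power hX (m i))
            (M.corr (M.isVar_power hX (m i)) (M.isVar_power hX (m i)) (e i)) z = z) →
          ((∑ i, r i : ℕ) : ℕ∞) ≤ N :=
  A.simple_sum_law hX hne hs

end Pool.Agent.Results.MP_386e47_ag.SimpleMotivesLaw
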