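import Mathlib
import Pool.Agent.N178.HX.Parts
import Pool.Agent.N178.AJ.Main

/-!
# Injectivity of the `p`-adic Abel–Jacobi map for motives of abelian type of small Hodge level

Let `X` be a complex abelian variety (`AV`, up to isogeny) in one of the following two classes.

(a) All simple factors of `X` are factors of an abelian variety `A` of dimension at most three (for
instance `X` is a power of `A`).

(b) There are finitely many CM types `T k`, divided into independent blocks, such that for each block
all CM types of the CM fields in this block are conjugate, or the total dimension of the block is at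
most three, or the block consists of all CM types of a Galois CM field of degree at most six; and
each simple factor of `X` is a factor of one of the abelian varieties with the CM types `T k`, or has
no complex multiplication and belongs to one of the classes in `Typ` below (of any dimension), where
an imaginary quadratic field which acts with two different multiplicities on the tangent space must
be the field of an elliptic curve of the first kind (fourfolds with such an action are excluded).

Suppose that `X` is defined over a number field `K`, and let `M = (X, p)` be a direct summand of the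
Chow motive of `X` (up to a twist), for example `M = h(V)`, where `V` is a smooth projective variety
over `K` which is the image of `X`, or the image of a product of curves of positive genus such that
the product of their Jacobians is `X`. Let `c` be a natural number such that `h^(s, t)(M) = 0` for all
`s, t` with `|s - t| ≥ 2` and `min (s, t) ≤ c`.

The theorem: the `p`-adic Abel–Jacobi map is injective on the homologically trivial cycles of
dimension `i` on `M`, with rational coefficients, for all `i ≤ c`. In particular, if the Hodge level
of `M` is at most one (`h^(s, t)(M) = 0` for `|s - t| ≥ 2`), then it is injective on the homologically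
trivial cycles of all dimensions.

The structure `ChowTheory` (`Pool.Agent.N178.BL.Defs`) collects the known properties of the Chow groups
of complex abelian varieties which are used: the formal properties of correspondences; Kimura's
theorem that homologically trivial endomorphisms of the motive are nilpotent; the semisimplicity of
the category of motives of abelian varieties modulo homological equivalence (Jannsen, Lieberman); the
algebraic classes are a system `Sys` (Lefschetz, Markman); the algebraicity of the isomorphisms
`H^n(Y, ℚ) ≅ H_n(Y, ℚ)` given by a polarization (Lieberman). The structure `AbelJacobi`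
(`Pool.Agent.N178.AJ.Defs`) collects the known properties of the `p`-adic Abel–Jacobi map for abelian
varieties over number fields: functoriality, the Künneth projectors, the Albanese projector and the
theorem of Mordell and Weil for zero-cycles, spreading out and specialization of correspondences.

The proof: the generalized Hodge conjecture holds for `X`
(`Pool.Agent.Results.MP_90e98f_ag.PowersAndCMFields`), so the parts of `M` of odd degree `2 k + 1` with
`k ≤ c` factor modulo homological equivalence through twists of motives `h_1(Y)`, and the other parts
through correspondences which are zero on cycles of dimension `i ≤ c`. These factorizations can be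
specialized to the algebraic closure of `K`. The part `h_1(Y)` only sees the Albanese image of the
zero-cycles on `Y`, which is determined by the Abel–Jacobi map. So the identity of `M` is, up to a
nilpotent endomorphism, zero on the kernel of the Abel–Jacobi map.
-/

set_option autoImplicit false

namespace Pool.Agent.Results.MP_386e47_ag.SmallHodgeLevel

open Module NumberField Pool.Agent.Y90 Pool.Agent.R915
open Pool.Agent.H204R3.CM (IsCMType)
open Pool.Agent.W547.KB (CMPair CMAV single)
open Pool.Agent.W547.LN (SameType)
open Pool.Agent.N830.HC (av)
open Pool.Agent.N178.BL (ChowTheory)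
open Pool.Agent.N178.AJ (AbelJacobi Small)

/-- The classes of simple abelian varieties: dimension at most three; or the endomorphism algebra is
an imaginary quadratic field of signature `(p, q)` with `p, q ≤ 3` (and trivial discriminant for
`(3, 3)`); or Albert type I or II of relative dimension at most three; or dimension five and
endomorphism algebra `ℚ`; or Albert type I or II, any dimension, with the largest possible Hodge
group. -/
def Typ (Y : AV) : Prop :=
  finrank ℚ Y.H ≤ 6 ∨ QuadMult Y ∨ RealMult Y ∨ FiveDim Y ∨ FullHodge Y

/-- Each simple factor `Y` of `X` is a factor of an abelian variety with one of the CM types `T k`; or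
it has no complex multiplication, belongs to one of the classes in `Typ`, and if `ℚ(√-d)` acts on `Y`
with two different multiplicities then `Y` is not a fourfold and the elliptic curve `E` with complex
multiplication by this field is a factor of an abelian variety with one of the CM types `T k`. -/
def HasFactorsIn {K : Type} (T : K → CMPair) (X : AV) : Prop :=
  ∀ Y, IsFactor Y X → (∃ k, IsFactor Y (av (single (T k)))) ∨ (¬ HasCMult Y ∧ Typ Y ∧
    ∀ d : ℚ, Unbalanced Y d → finrank ℚ Y.H ≠ 8 ∧
      ∃ k E, IsFactor E (av (single (T k))) ∧ finrank ℚ E.H = 2 ∧ Unbalanced E d)

/-- All CM types of the CM fields in the block `B` are conjugate, simultaneously: for each family of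
CM types `Ψ k` of the CM fields there is an automorphism of `ℂ` which takes `Ψ k` to the CM type
`T k`, for all `k` in `B`. -/
def AllConjugate {K : Type} (T : K → CMPair) (B : Set K) : Prop :=
  ∀ Ψ : ∀ k, Set ((T k).E →+* ℂ), (∀ k, IsCMType (Ψ k)) →
    ∃ σ : ℂ ≃+* ℂ, ∀ k ∈ B, ∀ φ, φ ∈ Ψ k ↔ (σ : ℂ →+* ℂ).comp φ ∈ (T k).Φ

/-- The CM fields of the block `B` are subfields of the Galois CM field `L`, and all CM types of `L`
occur. -/
def AllTypes {K : Type} (T : K → CMPair) (B : Set K) (L : Type) [Field L] [NumberField L]
    [IsCMField L] : Prop :=
  IsGalois ℚ L ∧ (∀ k ∈ B, Nonempty ((T k).E →+* L)) ∧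
    ∀ (Φ : Set (L →+* ℂ)) (hΦ : IsCMType Φ), ∃ k ∈ B, SameType ⟨L, Φ, hΦ⟩ (T k)

/-- The total dimension of the block is at most three. -/
def DimAtMostThree {K : Type} (T : K → CMPair) (B : Set K) : Prop :=
  ∃ F : Finset K, (∀ k, k ∈ F ↔ k ∈ B) ∧ ∑ k ∈ F, finrank ℚ (T k).E ≤ 6

/-- The blocks `{k | b k = j}` are independent: automorphisms of `ℂ` can be prescribed separately on
the complex embeddings of the CM fields of the different blocks. (The composita of the Galois
closures of the fields of the different blocks are linearly disjoint over `ℚ`.) -/
def IsIndependent {K J : Type} (T : K → CMPair) (b : K → J) : Prop :=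
  ∀ τ : J → (ℂ ≃+* ℂ), ∃ σ : ℂ ≃+* ℂ, ∀ k (φ : (T k).E →+* ℂ),
    (σ : ℂ →+* ℂ).comp φ = (τ (b k) : ℂ →+* ℂ).comp φ

/-- The condition on the block `B`. -/
def IsGoodBlock {K : Type} (T : K → CMPair) (B : Set K) : Prop :=
  AllConjugate T B ∨ (∃ (L : Type) (_ : Field L) (_ : NumberField L) (_ : IsCMField L),
    AllTypes T B L ∧ finrank ℚ L ≤ 6) ∨ DimAtMostThree T B

/-- The classes (a) and (b) of abelian varieties. -/
def IsGood (X : AV) : Prop :=
  (∃ A : AV, finrank ℚ A.H ≤ 6 ∧ ∀ Y, IsFactor Y X → IsFactor Y A) ∨
    ∃ (K J : Type) (_ : Fintype K) (T : K → CMPair) (b : K → J), IsIndependent T b ∧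
      (∀ j, IsGoodBlock T {k | b k = j}) ∧ HasFactorsIn T X

theorem ghc {C : ChowTheory} {X : AV} (hX : IsGood X) : Pool.Agent.N178.HX.GHC C.alg X := by
  rcases hX with ⟨A, hA, hX⟩ | ⟨K, J, _, T, b, hb, hj, hX⟩
  · exact Pool.Agent.N178.HX.pow3 Pool.Agent.N178.HX.t_MAINT Pool.Agent.N178.HX.t_COV
      Pool.Agent.N178.HX.t_POW A X hA hX C.alg
  · exact Pool.Agent.N178.HX.uncond' Pool.Agent.N178.HX.t_MAINT Pool.Agent.N178.HX.t_COV T b hb
      hj C.alg X hX

/-- **The `p`-adic Abel–Jacobi map is injective on the homologically trivial cycles of dimension at
most `c` on the direct summands `M = (X, p)` with `h^(s, t)(M) = 0` for `|s - t| ≥ 2` and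
`min (s, t) ≤ c`**, for all abelian varieties `X` over number fields in the classes (a), (b). The
cycles on `X` are the correspondences from the point `O` to `X`, those on `M` satisfy `p ∘ z = z`, and
`A.Triv i z` says that `z` is homologically trivial of dimension `i` with trivial Abel–Jacobi image. -/
theorem result (C : ChowTheory) (O : AV) (A : AbelJacobi C O) (X : AV) (hX : A.Def X)
    (hG : IsGood X) (p : C.Co X X) (hp : C.IsMotive p) (c : ℕ) (hc : Small p c) (i : ℤ)
    (hi : i ≤ c) (z : C.Co O X) (hpz : C.o p z = z) (hz : A.Triv i z) : z = 0 :=
  Pool.Agent.N178.AJ.main (ghc hG) hX hp hc hi hz hpz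

end Pool.Agent.Results.MP_386e47_ag.SmallHodgeLevel
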